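import Pool.Agent.Q152.QT.StmX
import Pool.Agent.Q163.RX.Phases

/-! # Project QT (helper152), job PX2: a net for the polynomial phases -/

set_option autoImplicit false

namespace Pool.Agent.Q26.QT

open Finset Pool.Agent.Q163.RX

theorem t_Net : Pool.Agent.Q152.QT.S_Net := by
  classical
  intro d
  obtain ⟨u, hu⟩ : ∃ u : ℕ, u = (d + 1) ^ 16 := ⟨_, rfl⟩
  have hr : root u = d + 1 := by
    apply le_antisymm
    · have h := root_pow u
      rw [hu] at h
      rw [hu]
      exact le_of_pow_le_pow_left₀ (n := 16) (by norm_num) (Nat.zero_le _) h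
    · exact le_root (le_of_eq hu.symm)
  refine ⟨((d + 2) * 7 ^ (d + 2) + 1) ^ (d + 1), (d + 2) * (d + 1), fun N hN => ?_⟩
  refine ⟨(cfs u (7 * N)).image (ph u (7 * N)), ?_, ?_, ?_⟩
  · have h1 : (cfs u (7 * N)).card ≤ den u (7 * N) ^ root u := by
      unfold cfs
      refine Finset.card_image_le.trans ?_
      rw [Fintype.card_piFinset]
      simp
    refine card_image_le.trans (h1.trans ?_)
    rw [hr, pow_mul, ← mul_pow]
    refine Nat.pow_le_pow_left ?_ _
    unfold den
    rw [hr, mul_pow]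
    have h2 : 1 ≤ N ^ (d + 2) := Nat.one_le_pow _ _ hN
    calc (d + 1 + 1) * (7 ^ (d + 1 + 1) * N ^ (d + 1 + 1)) + 1
        ≤ (d + 2) * (7 ^ (d + 2) * N ^ (d + 2)) + N ^ (d + 2) := by
          gcongr
      _ = ((d + 2) * 7 ^ (d + 2) + 1) * N ^ (d + 2) := by ring
  · intro φ hφ n
    obtain ⟨c, _, rfl⟩ := mem_image.1 hφ
    rw [norm_ph]
  · intro F hF
    refine ⟨ph u (7 * N) (nst u (7 * N) F), mem_image_of_mem _ (nst_mem _ _ _), fun n hn => ?_⟩
    have hF' : F.natDegree < root u := by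
      rw [hr]
      exact Nat.lt_succ_of_le hF
    have hn' : n ≤ 7 * N := hn.trans (Nat.mul_le_mul_right N (by norm_num))
    have hN' : 1 ≤ 7 * N := by omega
    have h1 := approx u (7 * N) F hF' n hn' hN'
    refine h1.trans ?_
    have hNr : (0 : ℝ) < N := by exact_mod_cast hN
    rw [div_le_div_iff₀ (by positivity) hNr]
    push_cast
    have := Real.pi_lt_d2
    nlinarith

end Pool.Agent.Q26.QT
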