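import Pool.Agent.Q152.QT.StmX

/-! # Project QT (helper152), job PX1: high moments with complex coefficients -/

set_option autoImplicit false

namespace Pool.Agent.Q26.QT

open Finset Pool.Agent.Q152.QT

theorem jac_prod {ι : Type} (s : Finset ι) (t : ι → ℕ) (m : ℕ) :
    jacobiSym ((∏ i ∈ s, t i : ℕ) : ℤ) m = ∏ i ∈ s, jacobiSym (t i : ℤ) m := by
  classical
  induction s using Finset.induction_on with
  | empty => simp [jacobiSym.one_left]
  | insert a s ha ih =>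
    rw [prod_insert ha, prod_insert ha, Nat.cast_mul, jacobiSym.mul_left, ih]

theorem mem_SqT {ι : Type} [Fintype ι] (x : ι → ℕ) (h : ℕ) (n : ι → ℕ) :
    n ∈ SqT x h ↔ (∀ i, n i ∈ Ioc (x i) (x i + h)) ∧ (∀ i, Squarefree (n i)) ∧
      IsSquare (∏ i, n i) := by
  classical
  unfold SqT
  rw [mem_filter, Fintype.mem_piFinset]

/-- the expansion of the power -/
theorem expand (k : ℕ) (W : Finset ℕ) (a : ℕ → ℂ) (m : ℕ) :
    ((‖∑ n ∈ W, a n * ((jacobiSym (n : ℤ) m : ℤ) : ℂ)‖ ^ (2 * k) : ℝ) : ℂ) =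
      ∑ t ∈ Fintype.piFinset (fun _ : Fin k ⊕ Fin k => W),
        (∏ i, Sum.elim (fun _ : Fin k => a (t i)) (fun _ : Fin k => (starRingEnd ℂ) (a (t i))) i) *
          ((jacobiSym ((∏ i, t i : ℕ) : ℤ) m : ℤ) : ℂ) := by
  classical
  have h1 : ∀ t : Fin k ⊕ Fin k → ℕ,
      (∏ i, Sum.elim (fun _ : Fin k => a (t i)) (fun _ : Fin k => (starRingEnd ℂ) (a (t i))) i) *
          ((jacobiSym ((∏ i, t i : ℕ) : ℤ) m : ℤ) : ℂ) =
      ∏ i, (Sum.elim (fun _ : Fin k => a (t i)) (fun _ : Fin k => (starRingEnd ℂ) (a (t i))) i *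
          ((jacobiSym (t i : ℤ) m : ℤ) : ℂ)) := by
    intro t
    rw [jac_prod, prod_mul_distrib]
    push_cast
    rfl
  simp_rw [h1]
  rw [← prod_univ_sum (fun _ : Fin k ⊕ Fin k => W)
    (fun i n => Sum.elim (fun _ : Fin k => a n) (fun _ : Fin k => (starRingEnd ℂ) (a n)) i *
      ((jacobiSym (n : ℤ) m : ℤ) : ℂ)), Fintype.prod_sum_type]
  simp only [Sum.elim_inl, Sum.elim_inr, prod_const, card_univ, Fintype.card_fin]
  have h2 : ∑ n ∈ W, (starRingEnd ℂ) (a n) * ((jacobiSym (n : ℤ) m : ℤ) : ℂ) =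
      (starRingEnd ℂ) (∑ n ∈ W, a n * ((jacobiSym (n : ℤ) m : ℤ) : ℂ)) := by
    rw [map_sum]
    refine sum_congr rfl fun n _ => ?_
    rw [map_mul, map_intCast]
  rw [h2, ← mul_pow, Complex.mul_conj', ← pow_mul]
  push_cast
  rfl

theorem t_MomC (h3a : S_Triv) (h5 : S_Char) : S_MomC := by
  classical
  intro k δ hδ
  obtain ⟨C, hC, hT⟩ := h3a (Fin k ⊕ Fin k) δ hδ
  refine ⟨C, hC.le, fun a N h x P ha hsq hh1 hhN hx => ?_⟩
  set M := (range (P + 1)).filter (fun m => Odd m) with hM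
  set W := Ioc x (x + h) with hW
  set T := Fintype.piFinset (fun _ : Fin k ⊕ Fin k => W) with hTd
  have hxm := mem_Ico.1 hx
  have hN1 : 1 ≤ N := hh1.trans hhN
  have hMc : M.card ≤ P := by
    have h1 : M ⊆ Icc 1 P := by
      intro m hm
      rw [hM, mem_filter, mem_range] at hm
      rw [mem_Icc]
      obtain ⟨j, hj⟩ := hm.2
      omega
    have h2 := card_le_card h1
    rwa [Nat.card_Icc, Nat.add_sub_cancel] at h2
  have hTc : T.card = h ^ (2 * k) := by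
    rw [hTd, Fintype.card_piFinset]
    simp only [prod_const, card_univ, Fintype.card_sum, Fintype.card_fin, hW, Nat.card_Ioc]
    congr 1
    · omega
    · omega
  set co : (Fin k ⊕ Fin k → ℕ) → ℂ := fun t =>
    ∏ i, Sum.elim (fun _ : Fin k => a (t i)) (fun _ : Fin k => (starRingEnd ℂ) (a (t i))) i with hco
  have hcoi : ∀ (t : Fin k ⊕ Fin k → ℕ) (i : Fin k ⊕ Fin k),
      ‖(Sum.elim (fun _ : Fin k => a (t i)) (fun _ : Fin k => (starRingEnd ℂ) (a (t i))) i : ℂ)‖ =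
        ‖a (t i)‖ := by
    intro t i
    rcases i with i | i
    · rfl
    · simp
  have hco1 : ∀ t, ‖co t‖ ≤ 1 := by
    intro t
    rw [hco]
    simp only
    rw [norm_prod]
    refine prod_le_one (fun i _ => norm_nonneg _) fun i _ => ?_
    rw [hcoi]
    exact ha _
  have hco0 : ∀ t : Fin k ⊕ Fin k → ℕ, (∃ i, ¬ Squarefree (t i)) → co t = 0 := by
    rintro t ⟨i, hi⟩
    rw [hco]
    refine prod_eq_zero (mem_univ i) ?_
    rw [← norm_eq_zero, hcoi, norm_eq_zero]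
    by_contra hne
    exact hi (hsq _ hne)
  -- the sum as a complex number
  have hmain : ((∑ m ∈ M, ‖∑ n ∈ W, a n * ((jacobiSym (n : ℤ) m : ℤ) : ℂ)‖ ^ (2 * k) : ℝ) : ℂ) =
      ∑ t ∈ T, co t * ((∑ m ∈ M, jacobiSym ((∏ i, t i : ℕ) : ℤ) m : ℤ) : ℂ) := by
    rw [Complex.ofReal_sum]
    simp_rw [expand]
    rw [sum_comm]
    refine sum_congr rfl fun t _ => ?_
    rw [Int.cast_sum, mul_sum]
  have hnn : 0 ≤ ∑ m ∈ M, ‖∑ n ∈ W, a n * ((jacobiSym (n : ℤ) m : ℤ) : ℂ)‖ ^ (2 * k) :=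
    sum_nonneg fun m _ => by positivity
  have hterm : ∀ t ∈ T, ‖co t * ((∑ m ∈ M, jacobiSym ((∏ i, t i : ℕ) : ℤ) m : ℤ) : ℂ)‖ ≤
      (if t ∈ SqT (fun _ : Fin k ⊕ Fin k => x) h then (P : ℝ) else 0) +
        4 * (3 * (N : ℝ)) ^ (2 * k) := by
    intro t ht
    have htW : ∀ i, t i ∈ W := fun i => (Fintype.mem_piFinset.1 ht) i
    have hti : ∀ i, 1 ≤ t i ∧ t i ≤ 3 * N := by
      intro i
      have := mem_Ioc.1 (htW i)
      constructor <;> omega
    have hpos : 0 < ∏ i, t i := prod_pos fun i _ => (hti i).1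
    have h4 : (0 : ℝ) ≤ 4 * (3 * (N : ℝ)) ^ (2 * k) := by positivity
    rw [norm_mul]
    have hnorm : ‖((∑ m ∈ M, jacobiSym ((∏ i, t i : ℕ) : ℤ) m : ℤ) : ℂ)‖ =
        ((|∑ m ∈ M, jacobiSym ((∏ i, t i : ℕ) : ℤ) m| : ℤ) : ℝ) := by
      rw [Complex.norm_intCast, Int.cast_abs]
    rw [hnorm]
    by_cases hs : IsSquare (∏ i, t i)
    · by_cases hq : ∀ i, Squarefree (t i)
      · have hmem : t ∈ SqT (fun _ : Fin k ⊕ Fin k => x) h :=
          (mem_SqT _ _ _).2 ⟨htW, hq, hs⟩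
        rw [if_pos hmem]
        have h1 : ((|∑ m ∈ M, jacobiSym ((∏ i, t i : ℕ) : ℤ) m| : ℤ) : ℝ) ≤ P := by
          have h2 : |∑ m ∈ M, jacobiSym ((∏ i, t i : ℕ) : ℤ) m| ≤ (P : ℤ) := by
            refine (abs_sum_le_sum_abs _ _).trans ?_
            refine (sum_le_sum (g := fun _ => (1 : ℤ)) fun m _ => ?_).trans ?_
            · rcases jacobiSym.trichotomy ((∏ i, t i : ℕ) : ℤ) m with h | h | h <;> rw [h] <;>
                norm_num
            · rw [sum_const, nsmul_eq_mul, mul_one]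
              exact_mod_cast hMc
          exact_mod_cast h2
        calc ‖co t‖ * ((|∑ m ∈ M, jacobiSym ((∏ i, t i : ℕ) : ℤ) m| : ℤ) : ℝ) ≤ 1 * P :=
              mul_le_mul (hco1 t) h1 (by exact_mod_cast abs_nonneg _) zero_le_one
          _ ≤ P + 4 * (3 * (N : ℝ)) ^ (2 * k) := by linarith
      · push Not at hq
        rw [hco0 t hq, norm_zero, zero_mul]
        split_ifs
        · positivity
        · linarith
    · have h1 : ((|∑ m ∈ M, jacobiSym ((∏ i, t i : ℕ) : ℤ) m| : ℤ) : ℝ) ≤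
          4 * (3 * (N : ℝ)) ^ (2 * k) := by
        have h2 := h5 (∏ i, t i) hpos hs P
        have h3 : ((∏ i, t i : ℕ) : ℝ) ≤ (3 * (N : ℝ)) ^ (2 * k) := by
          have h4 : (∏ i, t i) ≤ (3 * N) ^ (2 * k) := by
            calc (∏ i, t i) ≤ ∏ _i : Fin k ⊕ Fin k, (3 * N) := prod_le_prod' fun i _ => (hti i).2
              _ = (3 * N) ^ (2 * k) := by
                rw [prod_const, card_univ, Fintype.card_sum, Fintype.card_fin, ← two_mul]
          exact_mod_cast h4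
        have h5' : ((|∑ m ∈ M, jacobiSym ((∏ i, t i : ℕ) : ℤ) m| : ℤ) : ℝ) ≤
            ((4 * ((∏ i, t i : ℕ) : ℤ) : ℤ) : ℝ) := by exact_mod_cast h2
        refine h5'.trans ?_
        push_cast at h3 ⊢
        linarith
      calc ‖co t‖ * ((|∑ m ∈ M, jacobiSym ((∏ i, t i : ℕ) : ℤ) m| : ℤ) : ℝ)
          ≤ 1 * (4 * (3 * (N : ℝ)) ^ (2 * k)) :=
            mul_le_mul (hco1 t) h1 (by exact_mod_cast abs_nonneg _) zero_le_one
        _ ≤ _ := by
            split_ifs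
            · have : (0 : ℝ) ≤ P := Nat.cast_nonneg _
              linarith
            · linarith
  have hle : ∑ m ∈ M, ‖∑ n ∈ W, a n * ((jacobiSym (n : ℤ) m : ℤ) : ℂ)‖ ^ (2 * k) ≤
      ∑ t ∈ T, ((if t ∈ SqT (fun _ : Fin k ⊕ Fin k => x) h then (P : ℝ) else 0) +
        4 * (3 * (N : ℝ)) ^ (2 * k)) := by
    calc ∑ m ∈ M, ‖∑ n ∈ W, a n * ((jacobiSym (n : ℤ) m : ℤ) : ℂ)‖ ^ (2 * k)
        = ‖((∑ m ∈ M, ‖∑ n ∈ W, a n * ((jacobiSym (n : ℤ) m : ℤ) : ℂ)‖ ^ (2 * k) : ℝ) : ℂ)‖ := by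
          rw [Complex.norm_real, Real.norm_of_nonneg hnn]
      _ = ‖∑ t ∈ T, co t * ((∑ m ∈ M, jacobiSym ((∏ i, t i : ℕ) : ℤ) m : ℤ) : ℂ)‖ := by
          rw [hmain]
      _ ≤ ∑ t ∈ T, ‖co t * ((∑ m ∈ M, jacobiSym ((∏ i, t i : ℕ) : ℤ) m : ℤ) : ℂ)‖ :=
          norm_sum_le _ _
      _ ≤ _ := sum_le_sum hterm
  refine hle.trans ?_
  rw [sum_add_distrib, ← sum_filter, sum_const, sum_const, nsmul_eq_mul, nsmul_eq_mul, hTc]
  have hcard : ((T.filter fun t => t ∈ SqT (fun _ : Fin k ⊕ Fin k => x) h).card : ℝ) ≤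
      C * (h : ℝ) ^ k * (N : ℝ) ^ δ := by
    have h1 : ((T.filter fun t => t ∈ SqT (fun _ : Fin k ⊕ Fin k => x) h).card : ℝ) ≤
        (SqT (fun _ : Fin k ⊕ Fin k => x) h).card := by
      have : (T.filter fun t => t ∈ SqT (fun _ : Fin k ⊕ Fin k => x) h).card ≤
          (SqT (fun _ : Fin k ⊕ Fin k => x) h).card :=
        card_le_card fun t ht => (mem_filter.1 ht).2
      exact_mod_cast this
    refine h1.trans ?_
    have h2 := hT N h (fun _ => x) hh1 hhN (fun _ => hx)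
    have h3 : √(h : ℝ) ^ Fintype.card (Fin k ⊕ Fin k) = (h : ℝ) ^ k := by
      rw [Fintype.card_sum, Fintype.card_fin, ← two_mul, pow_mul, Real.sq_sqrt (Nat.cast_nonneg _)]
    rw [h3] at h2
    exact h2
  have hP : (0 : ℝ) ≤ P := Nat.cast_nonneg _
  have e1 : ((T.filter fun t => t ∈ SqT (fun _ : Fin k ⊕ Fin k => x) h).card : ℝ) * P ≤
      P * (C * (h : ℝ) ^ k * (N : ℝ) ^ δ) := by
    rw [mul_comm]
    exact mul_le_mul_of_nonneg_left hcard hP
  have e2 : ((h ^ (2 * k) : ℕ) : ℝ) * (4 * (3 * (N : ℝ)) ^ (2 * k)) =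
      4 * (3 * (N : ℝ)) ^ (2 * k) * (h : ℝ) ^ (2 * k) := by
    push_cast
    ring
  rw [e2]
  linarith

end Pool.Agent.Q26.QT
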